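import Mathlib

/-!
# `MP_fb91b8_co`: `Sort_n = inv(π₀)` fails for `n = 18` and for `n = 25`
-/

namespace Pool.Agent.Results.MP_fb91b8_co.NotOptimal

open Equiv Finset

/-! ### definitions -/

/-- `C_n`: the `n`-cycles, i.e. the permutations of `n` points with a single cycle. -/
def Cn (n : ℕ) : Set (Perm (Fin n)) := {γ | ∀ x y, γ.SameCycle x y}

/-- `s` is one of the adjacent transpositions `s_i = (i, i+1)`. -/
def IsAdj {n : ℕ} (s : Perm (Fin n)) : Prop := ∃ i j : Fin n, (j : ℕ) = i + 1 ∧ s = swap i j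

theorem IsAdj.mul_self {n : ℕ} {s : Perm (Fin n)} (h : IsAdj s) : s * s = 1 := by
  obtain ⟨i, j, _, rfl⟩ := h; exact swap_mul_self i j

/-- the graph `Γ_n` on `C_n`: `γ ≠ γ'` are adjacent iff `γ' = s_i γ s_i` for some `i`. -/
def Gamma (n : ℕ) : SimpleGraph (Cn n) where
  Adj γ γ' := γ ≠ γ' ∧ ∃ s : Perm (Fin n), IsAdj s ∧ (γ' : Perm (Fin n)) = s * γ * s
  symm := ⟨by
    rintro γ γ' ⟨h1, s, hs, h2⟩
    refine ⟨h1.symm, s, hs, ?_⟩
    rw [h2, mul_assoc, mul_assoc, mul_assoc, hs.mul_self, mul_one, ← mul_assoc, hs.mul_self, one_mul]⟩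
  loopless := ⟨fun γ h => h.1 rfl⟩

theorem finRotate_mem (n : ℕ) : finRotate n ∈ Cn n := by
  intro x y
  rcases n with _ | _ | n
  · exact x.elim0
  · have hx := x.isLt
    have hy := y.isLt
    have : x = y := Fin.ext (by omega)
    rw [this]
  · apply Equiv.Perm.IsCycle.sameCycle isCycle_finRotate
    · exact Perm.mem_support.1 (by rw [support_finRotate]; exact mem_univ x)
    · exact Perm.mem_support.1 (by rw [support_finRotate]; exact mem_univ y)

/-- `Sort_n`: the largest distance in `Γ_n` of an `n`-cycle from `c_n = (1, 2, ..., n)`. -/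
noncomputable def SortTime (n : ℕ) : ℕ :=
  sSup (Set.range fun γ : Cn n => (Gamma n).dist ⟨finRotate n, finRotate_mem n⟩ γ)

/-- the number of inversions of a list (one-line notation) -/
def inv : List ℕ → ℕ
  | [] => 0
  | x :: l => l.countP (fun y => y < x) + inv l

/-- admissible: the sum of the first `k` entries is at most `k (n+1) / 2` for every `k`. -/
def Admissible (l : List ℕ) : Prop := ∀ k ≤ l.length, 2 * (l.take k).sum ≤ k * (l.length + 1)

instance (l : List ℕ) : Decidable (Admissible l) := Nat.decidableBallLE _ _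

/-- exchange the value `v` with the entry immediately to its left if that entry is smaller -/
def stepLeft (v : ℕ) : List ℕ → List ℕ
  | [] => []
  | [x] => [x]
  | x :: y :: l => if y = v ∧ x < v then v :: x :: l else x :: stepLeft v (y :: l)

/-- move the value `v` to the left as far as possible while keeping the list admissible, never
past a larger value (at most `f` steps) -/
def moveLeft (v : ℕ) : ℕ → List ℕ → List ℕ
  | 0, l => l
  | f + 1, l => if Admissible (stepLeft v l) then moveLeft v f (stepLeft v l) else l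

/-- the permutation `[n-m, ..., 1, n, n-1, ..., n-m+1]`, `m = ⌊n/2⌋` -/
def start (n : ℕ) : List ℕ :=
  ((List.range (n - n / 2)).map (· + 1)).reverse ++ (List.range (n / 2)).map (n - ·)

/-- the permutation `π₀` -/
def pi0 (n : ℕ) : List ℕ :=
  (List.range (n / 2)).foldl (fun l t => moveLeft (n - t) n l) (start n)

/-! ### proof -/

/-- number of inversions of a permutation -/
def pinv {n : ℕ} (w : Perm (Fin n)) : ℕ :=
  (univ.filter fun p : Fin n × Fin n => p.1 < p.2 ∧ w p.2 < w p.1).card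

theorem pinv_adj {n : ℕ} {s : Perm (Fin n)} (hs : IsAdj s) (w : Perm (Fin n)) :
    pinv (s * w) ≤ pinv w + 1 := by
  obtain ⟨i, j, hij, rfl⟩ := hs
  unfold pinv
  refine le_trans (Finset.card_le_card (t := insert (w⁻¹ i, w⁻¹ j)
    (univ.filter fun p : Fin n × Fin n => p.1 < p.2 ∧ w p.2 < w p.1)) ?_)
    (Finset.card_insert_le _ _)
  rintro ⟨a, b⟩ h
  simp only [mem_filter, mem_univ, true_and, Perm.coe_mul, Function.comp_apply, mem_insert,
    Prod.mk.injEq] at h ⊢
  obtain ⟨hab, h⟩ := h
  by_cases hw : w b < w a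
  · exact Or.inr ⟨hab, hw⟩
  · left
    have hne : w a ≠ w b := fun h => hab.ne (w.injective h)
    have hlt : (w a : ℕ) < w b := by
      have h1 : (w a : ℕ) ≠ w b := fun h => hne (Fin.ext h)
      have h2 : ¬ (w b : ℕ) < w a := hw
      omega
    have h' : ((swap i j (w b) : Fin n) : ℕ) < swap i j (w a) := h
    rw [Equiv.swap_apply_def, Equiv.swap_apply_def] at h'
    have key : w a = i ∧ w b = j := by
      by_cases h1 : w b = i
      · by_cases h2 : w a = i
        · exact absurd (h2.trans h1.symm) hne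
        · by_cases h3 : w a = j
          · exfalso
            have e1 : (w b : ℕ) = i := by rw [h1]
            have e3 : (w a : ℕ) = j := by rw [h3]
            omega
          · exfalso
            simp only [h1, h2, h3, if_true, if_false] at h'
            have e1 : (w b : ℕ) = i := by rw [h1]
            omega
      · by_cases h4 : w b = j
        · by_cases h2 : w a = i
          · exact ⟨h2, h4⟩
          · exfalso
            have h3 : w a ≠ j := fun h => hne (h.trans h4.symm)
            simp only [h1, h2, h3, h4, if_true, if_false] at h'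
            have e4 : (w b : ℕ) = j := by rw [h4]
            have e5 : (w a : ℕ) ≠ i := fun h => h2 (Fin.ext h)
            split_ifs at h' <;> omega
        · exfalso
          by_cases h2 : w a = i
          · simp only [h1, h2, h4, if_true, if_false] at h'
            have e2 : (w a : ℕ) = i := by rw [h2]
            have e6 : (w b : ℕ) ≠ j := fun h => h4 (Fin.ext h)
            omega
          · by_cases h3 : w a = j
            · simp only [h1, h2, h3, h4, if_true, if_false] at h'
              have e3 : (w a : ℕ) = j := by rw [h3]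
              split_ifs at h' <;> omega
            · simp only [h1, h2, h3, h4, if_false] at h'
              omega
    exact ⟨by rw [← key.1]; simp, by rw [← key.2]; simp⟩

theorem pinv_list {n : ℕ} (L : List (Perm (Fin n))) (hL : ∀ s ∈ L, IsAdj s) :
    pinv L.prod ≤ L.length := by
  induction L with
  | nil =>
    simp only [pinv, List.prod_nil, Perm.coe_one, id_eq, List.length_nil, nonpos_iff_eq_zero,
      Finset.card_eq_zero, Finset.filter_eq_empty_iff]
    rintro ⟨a, b⟩ _ ⟨h1, h2⟩
    exact absurd (h1.trans h2) (lt_irrefl _)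
  | cons s L ih =>
    rw [List.prod_cons, List.length_cons]
    exact (pinv_adj (hL s List.mem_cons_self) _).trans
      (Nat.add_le_add_right (ih fun t ht => hL t (List.mem_cons_of_mem _ ht)) 1)

theorem walk_word {n : ℕ} {a b : Cn n} (p : (Gamma n).Walk a b) :
    ∃ L : List (Perm (Fin n)), (∀ s ∈ L, IsAdj s) ∧ L.length = p.length ∧
      (b : Perm (Fin n)) = L.prod * a * (L.prod)⁻¹ := by
  induction p with
  | nil => exact ⟨[], by simp, rfl, by simp⟩
  | cons h p ih =>
    obtain ⟨L, h1, h2, h3⟩ := ih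
    obtain ⟨_, s, hs, e⟩ := h
    refine ⟨L ++ [s], ?_, by simp [h2], ?_⟩
    · intro t ht
      rw [List.mem_append, List.mem_singleton] at ht
      rcases ht with ht | rfl
      · exact h1 t ht
      · exact hs
    · have hinv : s⁻¹ = s := inv_eq_of_mul_eq_one_left hs.mul_self
      rw [h3, e, List.prod_append, List.prod_singleton, mul_inv_rev, hinv]
      simp only [mul_assoc]

theorem comm_rotate {m : ℕ} (u : Perm (Fin (m + 1)))
    (h : u * finRotate (m + 1) = finRotate (m + 1) * u) (j : Fin (m + 1)) : u j = j + u 0 := by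
  have h1 : ∀ i, u (i + 1) = u i + 1 := by
    intro i
    have := congrArg (fun f : Perm (Fin (m + 1)) => f i) h
    simpa [Perm.mul_apply, finRotate_apply] using this
  induction j using Fin.induction with
  | zero => simp
  | succ i ih => rw [← Fin.coeSucc_eq_succ, h1, ih, add_right_comm]

theorem conj_eq {m : ℕ} (π w : Perm (Fin (m + 1)))
    (h : π * finRotate (m + 1) * π⁻¹ = w * finRotate (m + 1) * w⁻¹) :
    ∃ a, ∀ j, w j = π (j + a) := by
  refine ⟨(π⁻¹ * w) 0, fun j => ?_⟩
  rw [← comm_rotate (π⁻¹ * w) ?_ j]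
  · simp
  · have h' := congrArg (fun x => π⁻¹ * x * w) h
    simp only [mul_assoc, inv_mul_cancel, mul_one, inv_mul_cancel_left] at h'
    rw [mul_assoc, ← h']

theorem mem_conj {n : ℕ} (π : Perm (Fin n)) : π * finRotate n * π⁻¹ ∈ Cn n := by
  intro x y
  rw [Perm.sameCycle_conj]
  exact finRotate_mem n _ _

theorem reachable {n : ℕ} (π : Perm (Fin n)) :
    (Gamma n).Reachable ⟨finRotate n, finRotate_mem n⟩ ⟨π * finRotate n * π⁻¹, mem_conj π⟩ := by
  rcases n with _ | n
  · have : (⟨finRotate 0, finRotate_mem 0⟩ : Cn 0) = ⟨π * finRotate 0 * π⁻¹, mem_conj π⟩ :=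
      Subtype.ext (Subsingleton.elim _ _)
    rw [this]
  have hπ : π ∈ Submonoid.closure (Set.range fun i : Fin n => swap i.castSucc i.succ) := by
    rw [Perm.mclosure_swap_castSucc_succ]; trivial
  have key : ∀ (s γ : Perm (Fin (n + 1))) (hγ : γ ∈ Cn (n + 1)) (hγ' : s * γ * s⁻¹ ∈ Cn (n + 1)),
      IsAdj s → (Gamma (n + 1)).Reachable ⟨γ, hγ⟩ ⟨s * γ * s⁻¹, hγ'⟩ := by
    intro s γ hγ hγ' hs
    by_cases h : γ = s * γ * s⁻¹
    · have : (⟨γ, hγ⟩ : Cn (n + 1)) = ⟨s * γ * s⁻¹, hγ'⟩ := Subtype.ext h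
      rw [this]
    · apply SimpleGraph.Adj.reachable
      have hinv : s⁻¹ = s := inv_eq_of_mul_eq_one_left hs.mul_self
      refine ⟨fun h' => h (congrArg Subtype.val h'), s, hs, ?_⟩
      simp [hinv]
  have main : ∀ σ ∈ Submonoid.closure (Set.range fun i : Fin n => swap i.castSucc i.succ),
      ∀ (γ : Perm (Fin (n + 1))) (hγ : γ ∈ Cn (n + 1)) (hγ' : σ * γ * σ⁻¹ ∈ Cn (n + 1)),
      (Gamma (n + 1)).Reachable ⟨γ, hγ⟩ ⟨σ * γ * σ⁻¹, hγ'⟩ := by
    intro σ hσ
    induction hσ using Submonoid.closure_induction_left with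
    | one =>
      intro γ hγ hγ'
      have : (⟨γ, hγ⟩ : Cn (n + 1)) = ⟨1 * γ * 1⁻¹, hγ'⟩ := Subtype.ext (by simp)
      rw [← this]
    | mul_left s hs τ _ ih =>
      intro γ hγ hγ'
      have hτ : τ * γ * τ⁻¹ ∈ Cn (n + 1) := by
        intro x y
        rw [Perm.sameCycle_conj]
        exact hγ _ _
      have h1 := ih γ hγ hτ
      have hs' : IsAdj s := by
        obtain ⟨i, rfl⟩ := hs
        exact ⟨i.castSucc, i.succ, by simp, rfl⟩
      have h2 := key s (τ * γ * τ⁻¹) hτ (by
        have : s * (τ * γ * τ⁻¹) * s⁻¹ = s * τ * γ * (s * τ)⁻¹ := by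
          rw [mul_inv_rev]; simp only [mul_assoc]
        rw [this]; exact hγ') hs'
      have e : (⟨s * (τ * γ * τ⁻¹) * s⁻¹, by
        have : s * (τ * γ * τ⁻¹) * s⁻¹ = s * τ * γ * (s * τ)⁻¹ := by
          rw [mul_inv_rev]; simp only [mul_assoc]
        rw [this]; exact hγ'⟩ : Cn (n + 1)) = ⟨s * τ * γ * (s * τ)⁻¹, hγ'⟩ := by
        apply Subtype.ext
        simp only [mul_inv_rev, mul_assoc]
      rw [← e]
      exact h1.trans h2
  exact main π hπ _ _ _

/-- the lower bound for `Sort_n` -/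
theorem sort_ge {m : ℕ} (π : Perm (Fin (m + 1))) (N : ℕ)
    (h : ∀ a : Fin (m + 1), N ≤ (univ.filter fun p : Fin (m + 1) × Fin (m + 1) =>
      p.1 < p.2 ∧ π (p.2 + a) < π (p.1 + a)).card) : N ≤ SortTime (m + 1) := by
  have h1 : N ≤ (Gamma (m + 1)).dist ⟨finRotate (m + 1), finRotate_mem (m + 1)⟩
      ⟨π * finRotate (m + 1) * π⁻¹, mem_conj π⟩ := by
    obtain ⟨p, hp⟩ := (reachable π).exists_walk_length_eq_dist
    rw [← hp]
    obtain ⟨L, hL1, hL2, hL3⟩ := walk_word p
    obtain ⟨a, ha⟩ := conj_eq π L.prod hL3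
    rw [← hL2]
    refine le_trans ?_ (pinv_list L hL1)
    have := h a
    unfold pinv
    simp only [ha]
    exact this
  exact h1.trans (le_csSup (Set.finite_range _).bddAbove ⟨_, rfl⟩)

/-- a permutation of `18` points -/
def p18 : Perm (Fin 18) where
  toFun := ![4, 3, 16, 2, 15, 1, 14, 13, 0, 12, 11, 10, 9, 8, 7, 6, 5, 17]
  invFun := ![8, 5, 3, 1, 0, 16, 15, 14, 13, 12, 11, 10, 9, 7, 6, 4, 2, 17]
  left_inv := by decide
  right_inv := by decide

theorem check18 : ∀ a : Fin 18, 83 ≤ (univ.filter fun p : Fin 18 × Fin 18 =>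
    p.1 < p.2 ∧ p18 (p.2 + a) < p18 (p.1 + a)).card := by
  decide +kernel

/-- a permutation of `25` points -/
def p25 : Perm (Fin 25) where
  toFun := ![6, 5, 23, 4, 22, 3, 21, 2, 20, 1, 19, 18, 0, 17, 16, 15, 9, 14, 13, 12, 11, 10, 8, 7, 24]
  invFun := ![12, 9, 7, 5, 3, 1, 0, 23, 22, 16, 21, 20, 19, 18, 17, 15, 14, 13, 11, 10, 8, 6, 4, 2, 24]
  left_inv := by decide
  right_inv := by decide

theorem check25 : ∀ a : Fin 25, 168 ≤ (univ.filter fun p : Fin 25 × Fin 25 =>
    p.1 < p.2 ∧ p25 (p.2 + a) < p25 (p.1 + a)).card := by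
  decide +kernel

/-- the example in the definition of `π₀` -/
theorem pi0_twelve : pi0 12 = [6, 5, 4, 3, 12, 2, 11, 1, 10, 9, 8, 7] := by decide +kernel

/-- **Theorem.** `Sort_n = inv(π₀)` does not hold for all `n ≥ 1`: for `n = 18` one has
`inv(π₀) = 82 < 83 ≤ Sort_18`, and for `n = 25` one has `inv(π₀) = 167 < 168 ≤ Sort_25`. -/
theorem result :
    (inv (pi0 18) = 82 ∧ 83 ≤ SortTime 18) ∧ (inv (pi0 25) = 167 ∧ 168 ≤ SortTime 25) ∧
    ¬ ∀ n : ℕ, 1 ≤ n → SortTime n = inv (pi0 n) := by
  have h1 : inv (pi0 18) = 82 := by decide +kernel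
  have h2 : 83 ≤ SortTime 18 := sort_ge p18 83 check18
  have h3 : inv (pi0 25) = 167 := by decide +kernel
  have h4 : 168 ≤ SortTime 25 := sort_ge p25 168 check25
  refine ⟨⟨h1, h2⟩, ⟨h3, h4⟩, fun h => ?_⟩
  have := h 18 (by norm_num)
  omega

end Pool.Agent.Results.MP_fb91b8_co.NotOptimal
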